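import Pool.Agent.H8.Fd1

namespace Pool.Agent.Results.MP_f3d782_pr.XnotY

open H8.Fd

theorem result : ¬ ∃ (r : ℕ) (g : List (Fin 3) → Fin 4), 1 ≤ r ∧ ∀ n, 1 ≤ n → ∀ x ∈ W 4 n,
    mu 4 n x = ∑ y ∈ (W 3 (n + r - 1)).filter (fun y => blk r g n y = x), mu 3 (n + r - 1) y :=
  main

end Pool.Agent.Results.MP_f3d782_pr.XnotY
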